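import Pool.Agent.X312.CH.AJ

/-!
# A gap law for the kernels of the Abel-Jacobi maps of `Y × X ^ n` over a number field

Let `X` and `Y` be smooth projective varieties over a number field. Nothing is assumed on `Y`. On
`X` we assume that the numerically trivial self-correspondences of its powers are nilpotent (by
Kimura this holds if the Chow motive of `X` is finite-dimensional) and that homological and
numerical equivalence agree on its powers; both are known for products of curves and for abelian
varieties in characteristic zero. Let `ρ(Z)` be the rank of the cycles of all codimensions on `Z`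
modulo numerical equivalence, and `b` the sum of the Betti numbers of `X`. For all `m ≥ 1`: **all
the Abel-Jacobi maps** `AJ^i` **of** `Y × X ^ m` **are injective, or**

`dim {kernels of the Abel-Jacobi maps of Y × X ^ n} ≥ (1 - 4 (m + 3) b ^ (m + 5) log (n + 1) / n)
ρ(X ^ n)`

**for all** `n ≥ 1` (the left hand side may be infinite). So for a fixed variety `Y` the kernels
for the varieties `Y × X ^ n` are all zero, or their dimensions grow at least like the numbers
`ρ(X ^ n)`, and the injectivity for `Y × X ^ m` follows from one upper bound for the dimension of
the kernel for one large `n`. Products of an element of the kernel for `Y × X ^ m` with the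
classes on `X ^ (n - m)` give only `ρ(X ^ (n - m))` elements, which is smaller by an exponential
factor.

The proof. For `Z` a power of `X` let `N(Z)` be the space of the cycles in question on `Y × Z`;
the correspondences between powers of `X` act on these spaces. Modulo numerical equivalence the
self-correspondences of `P = X ^ m` form a finite-dimensional algebra, and the numerically trivial
ones are nilpotent, so that idempotents can be lifted. If `N(P) ≠ 0`, one takes an idempotent
correspondence `g` on `P` of minimal rank with `g N(P) ≠ 0` and an element `z ≠ 0` of `g N(P)`.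
The correspondences `x` with `x z = 0` have a nilpotent compression `g x g`, so the trace of `g x`
vanishes, and so `dim N(Z)` is at least the rank of the trace form `(u, v) ↦ tr (g v u)`; for `Z =
X ^ n` this rank is compared with `ρ(X ^ n)` by the log-convexity of the sequence of the ranks of
the intersection forms and by the symmetric group.
-/

set_option autoImplicit false

open CategoryTheory AlgebraicGeometry

universe u v

namespace Pool.Agent.Results.MP_a1cc03_ag.AbelJacobiGap

open Pool.Agent.H914 VarClass Obj WeilCohomology
open Pool.Agent.W492.BB (TheoryData)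
open Pool.Agent.X312.CH (CycleTheory AbelJacobi HasIndep)
open Pool.Agent.Y133.Half (pw cycRank)

variable {k : Type u} [Field k] {𝒱 : VarClass k} {ops : CycleOps 𝒱}
  {W : WeilCohomology.{u, v} ops} {C : TheoryData.{u, 0, 0} 𝒱 ℚ}

/-- The sum of the Betti numbers of `X`. -/
noncomputable def totalBetti (W : WeilCohomology.{u, v} ops) (X : 𝒱.Obj) : ℕ :=
  Module.finrank W.K (W.H X)

/-- The Abel-Jacobi map of `Z` is injective on the homologically trivial cycles (of all
codimensions, with rational coefficients). -/
def AJInjective {𝓣 : CycleTheory W C} (Φ : AbelJacobi 𝓣) (Z : 𝒱.Obj) : Prop :=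
  ∀ a : C.A Z, 𝓣.HomTriv a → Φ.aj Z a = 0 → a = 0

/-- **The gap law for Abel-Jacobi kernels.** Here `pw X m` is the product of `m + 1` copies of `X`,
and `HasIndep S x` says that there are at least `x` linearly independent elements of `S`. -/
theorem result (𝓣 : CycleTheory W C) (Φ : AbelJacobi 𝓣) (X Y : 𝒱.Obj)
    (hX : ∀ n : ℕ, 𝓣.NumNil (pw X n)) (hD : ∀ n : ℕ, HomEqNum W (pw X n)) (m : ℕ) :
    AJInjective Φ (Y.prod (pw X m)) ∨
    ∀ n : ℕ, HasIndep {a : C.A (Y.prod (pw X n)) | 𝓣.HomTriv a ∧ Φ.aj _ a = 0}
      ((1 - 4 * (m + 4) * (totalBetti W X : ℝ) ^ (m + 6) * Real.log (n + 2) / (n + 1)) *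
        cycRank ops (pw X n)) := by
  rcases Pool.Agent.X312.CH.aj_law' Φ X Y hX hD m with h | h
  · exact Or.inl fun a h1 h2 => h a ⟨h1, h2⟩
  · exact Or.inr h

end Pool.Agent.Results.MP_a1cc03_ag.AbelJacobiGap
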