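import Pool.Agent.X252.AL

/-!
# Kernels of Abel-Jacobi maps of varieties with a finite group of automorphisms

Let the finite group `G` act on the smooth projective variety `X` over the number field `k`, and let
`U` be a rational subspace of `CH(X)_ℚ` which is stable under `G`, for instance the kernel of the
Abel-Jacobi map `CH^m_hom(X)_ℚ → J^(2m-1)(X)_ℚ`; for a subgroup `H` of `G` the kernel of the
Abel-Jacobi map of the quotient `X / H` is then the subspace of the elements of `U` which are fixed
by `H`. We draw the consequences from the structure of the two-sided ideals of the rational group ring.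

* If every irreducible rational representation of `G` which occurs in `U` and has a nonzero vector
  fixed by `H` has for some `j` a nonzero vector fixed by `D_j`, and the Abel-Jacobi maps of the
  quotients `X / D_j` are injective, then the one of `X / H` is injective.
* If `c` is an involution in `G`, then the Abel-Jacobi map of `X` is injective if and only if the ones
  of `X / c` and of `X / [G, c]` are; if `c` is contained in a nonabelian simple subgroup of `G`, if and
  only if the one of `X / c` is.
* If a subgroup of `G` is partitioned into at least two subgroups `D_j`, then it is injective if and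
  only if the ones of all `X / D_j` are.
* If it is not injective but the Abel-Jacobi maps of the quotients of `X` by all subgroups of prime
  order are, then a fixed point free irreducible rational representation of `G` occurs in the kernel
  `U` (and `G` is a Frobenius complement), the subgroups of order `p q` and the commutative subgroups
  of `G` are cyclic and `G` has at most one involution.
-/

set_option autoImplicit false

open CategoryTheory AlgebraicGeometry

universe u v

namespace Pool.Agent.Results.MP_a1cc03_ag.FiniteGroups

open Pool.Agent.H914 Pool.Agent.W492.BB Pool.Agent.TH133 Pool.Agent.X252.GC Pool.Agent.X252.AL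
  Pool.Agent.X310.Mu

/-- **Theorem.** The Abel-Jacobi maps of `X` and of the quotients of `X` by the subgroups of a finite
group of automorphisms. -/
theorem result {k : Type u} [Field k] {𝒱 : VarClass k} (C : TheoryData.{u, v, 0} 𝒱 ℚ)
    [IsChowProj C] (X : 𝒱.Obj) {G : Type} [Group G] [Fintype G] (ρ : G →* Aut X)
    (U : Submodule ℚ (C.A X)) (hU : ∀ (g : G), ∀ a ∈ U, C.down (ρ g).hom a ∈ U) :
    (∀ (H : Subgroup G) (ι : Type) (D : ι → Subgroup G), DominatedKer U ρ H D →
      (∀ j, QuotAJInj U ρ (D j)) → QuotAJInj U ρ H) ∧
    (∀ c : G, c * c = 1 → (AJInj U ↔
      QuotAJInj U ρ (Subgroup.zpowers c) ∧ QuotAJInj U ρ (comms c))) ∧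
    (∀ c : G, InSimple c → c ≠ 1 → c * c = 1 →
      (AJInj U ↔ QuotAJInj U ρ (Subgroup.zpowers c))) ∧
    (∀ (ι : Type) (D : ι → Subgroup G) (H : Subgroup G), Partitions H D →
      (AJInj U ↔ ∀ j, QuotAJInj U ρ (D j))) ∧
    (¬ AJInj U → (∀ P : Subgroup G, (Nat.card P).Prime → QuotAJInj U ρ P) →
      FreeInKer U ρ ∧ CyclicSubgroups G) :=
  main' ρ hU

end Pool.Agent.Results.MP_a1cc03_ag.FiniteGroups
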