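import Pool.Agent.X120.NF.Niv

/-!
# The Abel-Jacobi map modulo cycles of smaller level, for the cycles of a family in the fibres over the points `b^(-t)`

Let `f : X → S` be a smooth projective family over an open part `S` of the projective line, defined over a number field `k`, `Y` a smooth projective variety over `k`, and let `Z_1, …, Z_r` be algebraic cycles of codimension `m` on
`X ×_S (Y × S)`, whose restrictions `Z_(j,t)` to the fibres `X_t × Y` are homologically trivial. Let `V_t`, of rank `n`, be a direct factor of the cohomology of the fibre `X_t` in degree `w` and `V_0`, of dimension `n_0`, a direct factor of the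
cohomology of `Y` in degree `w_0`, `w + w_0 = 2m - 1`. The Abel-Jacobi map has a component with values in the intermediate Jacobian of `V_t ⊗ V_0`. Let `ω` be a section of `F^(p_1)` of the de Rham cohomology
over `k(x)`, `ω_t ∈ V_t`, and `η` in `F^(p_2) V_0`, `p_1 + p_2 ≥ m`. The value of the pairing of the Abel-Jacobi image of `Z_(j,t)` with `ω_t ⊗ η` is an integral `p_j(t)` of this form over a chain (it depends on the
choice of the chain up to periods). We suppose that near `x = 0` the vector with the entries `p_1, …, p_r` and the `n` periods of `ω` is `L(log(1/x)) P(x)`, where the entries of `P` are polynomials with any complex coefficients in a system of G-functions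
with rational coefficients (solutions of a differential system with a regular singularity with rational exponents at infinity), the entries of `L(u)` are polynomials, and `L(u)` is invertible. If the fibre over `x = 0` is smooth this is so with
`L = 1` (for a family over a number field one uses the direct sum of the conjugates of the extended Gauss-Manin system, which is defined over `ℚ`); `x = 0` may also be a point with unipotent monodromy. We suppose that the functions `1`, `P_1, …, P_(r+n)`
are linearly independent over `ℂ(x)`. This is so if the monodromy representation on `V` is irreducible and not trivial, and the normal functions (contracted with `η`) are linearly independent modulo constants.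

Let `c` be an integer with `w + w_0 < c + p_1 + p_3` for an integer `p_3 ≤ (w_0 + 1) / 2`. For `c = m - 1` the condition is satisfied with `p_3 = [(w_0 + 1) / 2]` if `2 p_1 ≥ w + 2`, for example if `V_t` has a part of type `(w, 0)` and `w ≥ 2`; if `w = p_1` and `V_0 = ℚ` then every `c ≥ 1` is possible.

**Theorem.** Let `b ≥ 2` be an integer. There is a constant `C`, which depends only on the G-functions, `b`, `n`, `r`, `n_0` and on a bound `e` for the degrees of the polynomials, such that for all such families and cycles, all `V_0`, `η` and all `N ≥ 2`: for all but at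
most `C log N` of the `t ≤ N`, for the fibre over `x = b^(-t)` and for each subgroup `Triv` of `CH^m(X_t × Y)_hom` such that the Abel-Jacobi images of its elements are in the image of a sub-Hodge structure of `V_t ⊗ V_0` contained in `F^c`, the cycles `Z_(1,t), …, Z_(r,t)` are linearly independent in
`(CH^m_hom / Triv)_ℚ`, and the Abel-Jacobi map modulo the images of such sub-Hodge structures is injective on the subspace which they span.

For `c = m - 1` the group `Triv` may be the group of the cycles which are algebraically equivalent to zero (Griffiths, Lieberman: their Abel-Jacobi images are in the image of a sub-Hodge structure of level at most one), so `Z_(1,t), …, Z_(r,t)` are linearly independent in the Griffiths group of `X_t × Y`, and the Abel-Jacobi map on the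
subgroup of the Griffiths group which they generate is injective modulo torsion. For general `c`, `Triv` may be the group generated by the cycles which are homologically trivial on a closed subset of codimension `c` (more precisely, which are the images of homologically trivial cycles on resolutions of such subsets), and for
`c = m - 1 - l` the step `A_l CH^m` of the filtration of Nori. For families of Calabi-Yau threefolds (`w = 3`, `V_0 = ℚ`, `m = 2`) one can take for `Triv` the cycles which are homologically trivial on divisors.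

This is an instance of the injectivity of the Abel-Jacobi map over number fields, in a strong form (modulo cycles of smaller level). For `t` outside a thin set such statements were known by specialisation of the `ℓ`-adic Abel-Jacobi map and of the Galois representations (the points `b^(-t)` may be a part of a thin set), and for `t` outside a countable set by Griffiths' method. The
construction of cycles is no part of the theorem. Without `Triv`: `Pool.Agent.Results.MP_e28333_ag.NormalFunctionsAtPowers`.

Proof. A rational element of `F^c (V_t ⊗ V_0)` has the pairing zero with `ω_t ⊗ η'` for all `η'` in `F^(p_3) V_0`. This is a linear relation between the periods of `ω_t` with coefficients in a vector space of bounded dimension over `ℚ`; by the counting theorem on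
values of G-functions on geometric sequences (`Pool.Agent.X120.GS`) for all but few points it is trivial, and the element is zero, since `F^(p_3)` and its complex conjugate span `V_0`. Hence there is no such sub-Hodge structure except zero. The same theorem excludes relations between the `p_j(t)` and the periods.
-/

set_option autoImplicit false

open Pool.Agent.X120.BM Pool.Agent.X120.NF

namespace Pool.Agent.Results.MP_a1cc03_ag.GriffithsGroupAtPowers

/-- The subspace `Triv` of `CH` is mapped to the image of a rational subspace `U` (a sub-Hodge structure) of `V ⊗ V_0` with `U ⊆ F^c`. -/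
def HasLevel {n n₀ : ℕ} {CH : Type} [AddCommGroup CH] [Module ℚ CH] (w w₀ m c : ℕ) (H : ℕ → Submodule ℂ (Fin n → ℂ))
    (H₀ : ℕ → Submodule ℂ (Fin n₀ → ℂ)) (AJ : CH →ₗ[ℚ] Jacobian w w₀ H H₀ m) (Triv : Submodule ℚ CH)
    (U : Submodule ℚ (Matrix (Fin n) (Fin n₀) ℚ)) : Prop :=
  (∀ M ∈ U, (M.map fun x : ℚ => (x : ℂ)) ∈ tensorFiltration w w₀ H H₀ c) ∧
    ∀ x ∈ Triv, ∃ u ∈ complexElements U, AJ x = Submodule.Quotient.mk u

/-- For all Hodge structures `H` of weight `w` with a form `A` such that the vector of the periods at `x = b^(-t)` is in `F^(p_1)`, for all groups `CH`, homomorphisms `AJ` from `CH` to `V_ℂ / (F^m + V_ℚ)`,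
`V = V_t ⊗ V_0`, all `Triv ⊆ CH`, whose image comes from a rational subspace `U` in `F^c`, and all elements `z_1, …, z_r` of `CH` such that the `AJ z_j` are represented by elements with the pairings `p_j(t)` with `ω_t ⊗ η`: the `z_j` are linearly independent
modulo `Triv`, and no nonzero element of the subspace which they span is mapped to the image of `U`. -/
def Good {G : GSystem} {n r n₀ e : ℕ} (F : Functions G (r + n) e) (w w₀ m p₁ c : ℕ) (A₀ : Matrix (Fin n₀) (Fin n₀) ℚ)
    (H₀ : ℕ → Submodule ℂ (Fin n₀ → ℂ)) (η : Fin n₀ → ℂ) (b t : ℕ) : Prop :=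
  ∀ (A : Matrix (Fin n) (Fin n) ℚ) (H : ℕ → Submodule ℂ (Fin n → ℂ)), IsPolarized w A H →
    periods (F.val b t) ∈ filtration w H p₁ →
    ∀ (CH : Type) [AddCommGroup CH] [Module ℚ CH] (AJ : CH →ₗ[ℚ] Jacobian w w₀ H H₀ m) (Triv : Submodule ℚ CH)
      (U : Submodule ℚ (Matrix (Fin n) (Fin n₀) ℚ)), HasLevel w w₀ m c H H₀ AJ Triv U →
    ∀ (z : Fin r → CH) (a : Fin r → Matrix (Fin n) (Fin n₀) ℂ), IsRepresented A A₀ (F.val b t) η a →
      (∀ j, AJ (z j) = Submodule.Quotient.mk (a j)) →
      (LinearIndependent ℚ fun j => (Submodule.Quotient.mk (z j) : CH ⧸ Triv)) ∧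
        ∀ x ∈ Submodule.span ℚ (Set.range z), (∃ u ∈ complexElements U, AJ x = Submodule.Quotient.mk u) → x = 0

/-- **The theorem.** -/
theorem result (G : GSystem) (n r n₀ e b : ℕ) (hb : 2 ≤ b) :
    ∃ C : ℝ, 0 ≤ C ∧ ∀ (F : Functions G (r + n) e) (w w₀ m p₁ p₂ p₃ c : ℕ), w + w₀ + 1 = 2 * m → m ≤ p₁ + p₂ →
      w + w₀ < c + p₁ + p₃ → 2 * p₃ ≤ w₀ + 1 →
      ∀ (A₀ : Matrix (Fin n₀) (Fin n₀) ℚ) (H₀ : ℕ → Submodule ℂ (Fin n₀ → ℂ)), IsPolarized w₀ A₀ H₀ →
      ∀ η ∈ filtration w₀ H₀ p₂, ∀ N : ℕ, 2 ≤ N →
      (({t : ℕ | 1 ≤ t ∧ t ≤ N ∧ ¬ Good F w w₀ m p₁ c A₀ H₀ η b t}.ncard : ℕ) : ℝ) ≤ C * Real.log N := by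
  classical
  obtain ⟨C, hC, hcount⟩ := lin_count G (r + n) e ((n₀ + 1) + n₀ * n₀) b hb
  refine ⟨C, hC, ?_⟩
  intro F w w₀ m p₁ p₂ p₃ c hm hmp hc h2p A₀ H₀ hH₀ η hη N hN
  -- the space of the coefficients
  set B := Module.finBasis ℂ (filtration w₀ H₀ p₃) with hB
  have hd : Module.finrank ℂ (filtration w₀ H₀ p₃) ≤ n₀ := by
    refine (Submodule.finrank_le _).trans ?_
    rw [Module.finrank_fin_fun]
  set V₀ : Submodule ℚ ℂ := Submodule.span ℚ (Set.range fun o : Option (Fin n₀) ⊕ (Fin (Module.finrank ℂ (filtration w₀ H₀ p₃)) × Fin n₀) =>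
    o.elim (fun o => o.elim 1 η) fun o => (B o.1 : Fin n₀ → ℂ) o.2) with hV₀
  have hVf : Module.Finite ℚ V₀ := Module.Finite.span_of_finite ℚ (Set.finite_range _)
  have hVr : Module.finrank ℚ V₀ ≤ (n₀ + 1) + n₀ * n₀ := by
    refine (finrank_range_le_card _).trans ?_
    rw [Fintype.card_sum, Fintype.card_option, Fintype.card_prod, Fintype.card_fin, Fintype.card_fin]
    have := Nat.mul_le_mul_right n₀ hd
    omega
  refine le_trans ?_ (hcount F V₀ hVr N hN)
  have hfin : {t : ℕ | 1 ≤ t ∧ t ≤ N ∧ ∃ q : Fin (r + n) → ℂ, q ≠ 0 ∧ (∀ j, q j ∈ V₀) ∧ ∑ j, q j * F.val b t j = 0}.Finite :=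
    (Set.finite_Iic N).subset fun t ht => ht.2.1
  refine Nat.cast_le.2 (Set.ncard_le_ncard ?_ hfin)
  rintro t ⟨ht1, htN, hnot⟩
  refine ⟨ht1, htN, ?_⟩
  by_contra hno
  apply hnot
  intro A H hH hω CH _ _ AJ Triv U hU z a ha hAJ
  have hgood : ∀ q : Fin (r + n) → ℂ, (∀ j, q j ∈ V₀) → ∑ j, q j * F.val b t j = 0 → q = 0 := by
    intro q hq h0
    by_contra hq0
    exact hno ⟨q, hq0, hq, h0⟩
  have h1V : (1 : ℂ) ∈ V₀ := Submodule.subset_span ⟨Sum.inl none, rfl⟩
  have hηV : ∀ c, η c ∈ V₀ := fun c => Submodule.subset_span ⟨Sum.inl (some c), rfl⟩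
  have hBV : ∀ i c, (B i : Fin n₀ → ℂ) c ∈ V₀ := fun i c => Submodule.subset_span ⟨Sum.inr (i, c), rfl⟩
  -- `U` is zero
  have hS : filtration w₀ H₀ p₃ ≤ Submodule.span ℂ (Set.range fun i => (B i : Fin n₀ → ℂ)) := by
    intro u hu
    have h1 : (⟨u, hu⟩ : filtration w₀ H₀ p₃) ∈ Submodule.span ℂ (Set.range B) := by rw [B.span_eq]; exact Submodule.mem_top
    have h2 := Submodule.mem_map_of_mem (f := (filtration w₀ H₀ p₃).subtype) h1
    rw [Submodule.map_span, ← Set.range_comp] at h2
    exact h2
  have hU0 : ∀ M ∈ U, M = 0 := by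
    intro M hM
    exact rational_zero hc h2p hH hH₀ hω hS (by rintro _ ⟨i, rfl⟩; exact (B i).2) (by rintro _ ⟨i, rfl⟩ c; exact hBV i c) hgood (hU.1 M hM)
  have hUC : ∀ u ∈ complexElements U, u = 0 := by
    intro u hu
    unfold complexElements at hu
    have h1 : ((fun M : Matrix (Fin n) (Fin n₀) ℚ => M.map fun x : ℚ => (x : ℂ)) '' (U : Set (Matrix (Fin n) (Fin n₀) ℚ))) ⊆ {0} := by
      rintro _ ⟨M, hM, rfl⟩
      rw [hU0 M hM]
      ext i j
      simp
    have h2 := Submodule.span_mono h1 hu
    rwa [Submodule.span_zero_singleton] at h2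
  -- the map is injective on the span
  have h1 := jac_indep' (m := m) (by omega) hH hH₀ hω hη h1V hηV hgood ha
  have h2 : (fun j => AJ (z j)) = fun j => (Submodule.Quotient.mk (a j) : Jacobian w w₀ H H₀ m) := funext hAJ
  rw [← h2] at h1
  obtain ⟨h3, h4⟩ := inj_of_indep AJ h1
  have h5 : ∀ x ∈ Submodule.span ℚ (Set.range z), (∃ u ∈ complexElements U, AJ x = Submodule.Quotient.mk u) → x = 0 := by
    rintro x hx ⟨u, hu, hxu⟩
    refine h4 x hx ?_
    rw [hxu, hUC u hu, Submodule.Quotient.mk_zero]
  refine ⟨?_, h5⟩
  rw [Fintype.linearIndependent_iff]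
  intro g hg
  have h6 : ∑ j, g j • z j ∈ Triv := by
    rw [← Submodule.Quotient.mk_eq_zero, ← hg, ← Submodule.mkQ_apply, map_sum]
    rfl
  have h7 : ∑ j, g j • z j = 0 :=
    h5 _ (Submodule.sum_mem _ fun j _ => Submodule.smul_mem _ _ (Submodule.subset_span ⟨j, rfl⟩)) (hU.2 _ h6)
  exact Fintype.linearIndependent_iff.1 h3 g h7

end Pool.Agent.Results.MP_a1cc03_ag.GriffithsGroupAtPowers
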