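import Pool.Agent.X264.AJ.Main

/-!
# Injectivity of the Abel–Jacobi map over number fields and over real number fields
-/

set_option autoImplicit false

open Pool.Agent.X264.AJ

namespace Pool.Agent.Results.MP_a1cc03_ag.RealNumberFields

universe u

/-- **The Abel–Jacobi map over real number fields.** For a number field `K ⊂ ℂ`, let `Inj K` be the
injectivity up to torsion of `CH^m(X)^0 → J^m(X ×_K ℂ)` for all smooth projective `X` over `K` and
all `m ≥ 1`.
(1) `Inj K` for all number fields `K ⊂ ℂ` is equivalent to the same statement for all real number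
fields `K ⊂ ℝ` and all rational varieties of odd dimension `2m - 1` over them.
(2) `Inj K` for all number fields `K ⊂ ℂ` is equivalent to `Inj ℚ` together with the independence
of the kernel of the Abel–Jacobi map of `X_σ` of the complex embedding `σ` of `K`, for all `X` over
all number fields `K`.
(3) `Inj K` for all CM fields `K` is equivalent to the same statement for all totally real fields
`F` and all rational varieties of dimension `2m - 1` over them.
(4) If `K ⊂ ℂ` is stable under complex conjugation, then `Inj K` is equivalent to the same statement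
for `K ∩ ℝ` and rational varieties of dimension `2m - 1`. -/
theorem result (T : Sys.{u}) (hT : T.IsAJ) :
    ((∀ K : IntermediateField ℚ ℂ, FiniteDimensional ℚ K → T.Inj K) ↔
      ∀ K : IntermediateField ℚ ℂ, FiniteDimensional ℚ K → K ≤ reals → T.InjRat K) ∧
    ((∀ K : IntermediateField ℚ ℂ, FiniteDimensional ℚ K → T.Inj K) ↔
      T.Inj ⊥ ∧ ∀ K : IntermediateField ℚ ℂ, FiniteDimensional ℚ K → T.Indep K) ∧
    ((∀ K : IntermediateField ℚ ℂ, IsCM K → T.Inj K) ↔
      ∀ F : IntermediateField ℚ ℂ, IsTotallyReal F → T.InjRat F) ∧
    ∀ K : IntermediateField ℚ ℂ, FiniteDimensional ℚ K → ConjStable K →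
      (T.Inj K ↔ T.InjRat (K ⊓ reals)) :=
  ⟨Sys.all_iff_real hT, Sys.all_iff_indep hT, Sys.cm_iff_totallyReal hT, fun _ hK hc =>
    (Sys.inj_iff_real hT hK hc).trans (Sys.inj_iff_rat hT _)⟩

end Pool.Agent.Results.MP_a1cc03_ag.RealNumberFields
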